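import Pool.Agent.MWE.Stmts

set_option autoImplicit false

/-!
# Squad MWE, row CLM (helper46): a step in the class
-/

namespace Pool.Agent.MWE.H46

open Pool.Agent.Helper14_MV Pool.Agent.Helper2_MV Pool.Agent.MVD Pool.Agent.MWE

theorem up_self (B : ℕ → List ℕ) (r : ℕ) (D : List ℕ) : up B r D r = D := by
  simp [up]

theorem up_ne (B : ℕ → List ℕ) {r q : ℕ} (D : List ℕ) (h : q ≠ r) : up B r D q = B q := by
  simp [up, h]

theorem up_up (B : ℕ → List ℕ) (r : ℕ) (D D' : List ℕ) : up (up B r D) r D' = up B r D' := by
  funext q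
  unfold up
  split_ifs <;> rfl

theorem up_id (B : ℕ → List ℕ) (r : ℕ) (D : List ℕ) (h : B r = D) : up B r D = B := by
  funext q
  unfold up
  split_ifs with hq
  · rw [hq, h]
  · rfl

theorem bw_congr (R : List ℕ) (B B' : ℕ → List ℕ) (h : ∀ r ∈ R, B r = B' r) :
    Bw R B = Bw R B' := by
  induction R with
  | nil => rfl
  | cons a R ih =>
    have h1 := ih (fun r hr => h r (List.mem_cons_of_mem _ hr))
    unfold Bw at h1 ⊢
    rw [List.flatMap_cons, List.flatMap_cons, h1, h a List.mem_cons_self]

theorem bw_append (R1 R2 : List ℕ) (B : ℕ → List ℕ) : Bw (R1 ++ R2) B = Bw R1 B ++ Bw R2 B := by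
  unfold Bw
  rw [List.flatMap_append]

theorem bw_cons (r : ℕ) (R : List ℕ) (B : ℕ → List ℕ) :
    Bw (r :: R) B = B r ++ ((3 * r + 2) :: Bw R B) := by
  unfold Bw
  rw [List.flatMap_cons, List.append_assoc]
  rfl

theorem bw_up {R1 R2 : List ℕ} {r : ℕ} (B : ℕ → List ℕ) (D : List ℕ)
    (h : (R1 ++ r :: R2).Nodup) :
    Bw (R1 ++ r :: R2) (up B r D) = Bw R1 B ++ (D ++ (3 * r + 2) :: Bw R2 B) := by
  have h1 : r ∉ R1 ∧ r ∉ R2 := by
    rw [List.nodup_append] at h
    refine ⟨fun hc => h.2.2 r hc r List.mem_cons_self rfl, ?_⟩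
    exact (List.nodup_cons.1 h.2.1).1
  rw [bw_append, bw_cons, up_self,
    bw_congr R1 (up B r D) B (fun q hq => up_ne B D (fun hc => h1.1 (hc ▸ hq))),
    bw_congr R2 (up B r D) B (fun q hq => up_ne B D (fun hc => h1.2 (hc ▸ hq)))]

theorem sfr_up {B : ℕ → List ℕ} (hB : ∀ r, SFr (B r)) {D : List ℕ} (hD : SFr D) (r0 : ℕ) :
    ∀ r, SFr (up B r0 D r) := by
  intro r
  unfold up
  split_ifs
  · exact hD
  · exact hB r

theorem fxy_perm {D D' : List ℕ} (h : D.Perm D') : (fxy D).Perm (fxy D') := h.filter _

/-- a word is a rearrangement of the part without `x`, `y` and the part with `x`, `y` -/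
theorem split_perm (D : List ℕ) : (dxy D ++ fxy D).Perm D := by
  have h1 : dxy D = D.filter (fun a => !decide (a = 0 ∨ a = 3)) := by
    unfold dxy
    apply List.filter_congr
    intro a _
    by_cases h0 : a = 0
    · simp [h0]
    · by_cases h3 : a = 3
      · simp [h3]
      · simp [h0, h3]
  rw [h1]
  unfold fxy
  exact (List.perm_append_comm).trans (List.filter_append_perm _ D)

theorem xx_of_perm {X Z : List ℕ} (hX : XX X) (h : Z.Perm X) : XX Z := by
  have h1 : Z.Perm [0, 3] := by
    rcases hX with rfl | rfl
    · exact h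
    · exact h.trans (List.Perm.swap 0 3 [])
  have hl := h1.length_eq
  match Z, h1, hl with
  | [u, v], h1, _ =>
    have hu : u ∈ [0, 3] := h1.mem_iff.1 List.mem_cons_self
    have hv : v ∈ [0, 3] := h1.mem_iff.1 (by simp)
    have hn : u ≠ v := by
      have := h1.nodup_iff.2 (by decide)
      simpa using this
    simp only [List.mem_cons, List.not_mem_nil, or_false] at hu hv
    rcases hu with rfl | rfl
    · rcases hv with rfl | rfl
      · exact absurd rfl hn
      · exact Or.inl rfl
    · rcases hv with rfl | rfl
      · exact Or.inr rfl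
      · exact absurd rfl hn

theorem fxy_xx {X : List ℕ} (hX : XX X) : fxy X = X := by
  rcases hX with rfl | rfl <;> simp [fxy]

theorem fxy_dxy (D : List ℕ) : fxy (dxy D) = [] := by
  unfold fxy dxy
  rw [List.filter_filter, List.filter_eq_nil_iff]
  intro a _
  simp only [ne_eq, Bool.decide_and, Bool.and_eq_true, decide_eq_true_eq,
    Bool.decide_or, Bool.or_eq_true, not_and]
  tauto

theorem fxy_append (D D' : List ℕ) : fxy (D ++ D') = fxy D ++ fxy D' := by
  unfold fxy
  rw [List.filter_append]

/-- row CLM -/
theorem clm (hplm : PlmStmt) (hfce : FceStmt) (hbas : BasStmt) (htra : TraStmt)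
    (hpmv : PmvStmt) (hcpr : CprStmt) (hswi : SwiStmt) (hswt : SwtStmt) (hnfh : NfhStmt) :
    ClmStmt := by
  intro β m R c X P1 Y Y' P2 hS hX hr hYY hY hΛ
  by_cases hY0 : Y = []
  · subst hY0
    have h1 : Y' = [] := List.Perm.eq_nil hYY.symm
    subst h1
    exact ⟨X, hX, hr⟩
  obtain ⟨B, e, hw, sB, se⟩ := (hbas β m R c X hS.i3 hS.can hS.pR hX).1 _ hr
  have hrB : RR β (Ex R c X) (Bw R B ++ e) := by
    rw [← hw]
    exact hr
  have hG := hcpr β m R c X B e hS hX sB se hrB
  have hnd : R.Nodup := hS.pR.nodup_iff.2 List.nodup_range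
  have sY' : SFr Y' := fun a ha => hY a (hYY.mem_iff.2 ha)
  rcases hfce R B e P1 Y P2 (fun r _ => sB r) hY hY0 hw.symm with
    ⟨R1, rY, R2, a, c', hR, hBr, hP1, hP2⟩ | ⟨a, c', he, hP1, hP2⟩
  swap
  · -- `Y` in the tail
    have h1 := hpmv β m R c B e hS.can hS.ih hS.pR hG.toBf B (a ++ (Y' ++ c'))
      (fun r _ => List.Perm.refl _) rfl rfl
      (by rw [he]; exact (List.Perm.append_right c' hYY.symm).append_left a)
    refine ⟨X, hX, ?_⟩
    have h2 : P1 ++ (Y' ++ P2) = Bw R B ++ (a ++ (Y' ++ c')) := by
      rw [hP1, hP2, List.append_assoc]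
    rw [h2]
    exact β.trans hrB h1
  -- `Y` in block `rY`
  have hnew : ∀ Z : List ℕ, P1 ++ (Z ++ P2) = Bw R (up B rY (a ++ (Z ++ c'))) ++ e := by
    intro Z
    rw [hP1, hP2, hR, bw_up B _ (hR ▸ hnd)]
    simp only [List.append_assoc, List.cons_append]
  have hrR : rY ∈ R := by
    rw [hR]
    simp
  have hperm : (a ++ (Y' ++ c')).Perm (B rY) := by
    rw [hBr]
    exact (List.Perm.append_right c' hYY.symm).append_left a
  by_cases hr1 : rY = 1
  · -- block `1`
    subst hr1
    have hmem : (∀ v ∈ Y, v ∈ c') ∨ (∃ r ∈ R, r ≠ 1 ∧ ∀ v ∈ Y, v ∈ B r) ∨ ∀ v ∈ Y, v ∈ e := by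
      obtain ⟨Q1, Λ, Q2, hP, sΛ, hYΛ⟩ := hΛ
      have hΛ0 : Λ ≠ [] := by
        intro h0
        obtain ⟨v, hv⟩ := List.exists_mem_of_ne_nil Y hY0
        have := hYΛ v hv
        rw [h0] at this
        exact List.not_mem_nil this
      have hn2 : (1 :: R2).Nodup := by
        have := hR ▸ hnd
        exact (List.nodup_append.1 this).2.1
      have hE : Bw (1 :: R2) (up B 1 c') ++ e = Q1 ++ (Λ ++ Q2) := by
        rw [← hP, hP2]
        have := bw_up (R1 := []) B c' (by simpa using hn2)
        simp only [List.nil_append] at this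
        rw [this]
        simp [Bw]
      have sc' : SFr c' := by
        intro v hv
        exact sB 1 v (by rw [hBr]; simp [hv])
      rcases hfce (1 :: R2) (up B 1 c') e Q1 Λ Q2 (fun r _ => sfr_up sB sc' 1 r) sΛ hΛ0 hE with
        ⟨R1', r', R2', a', c'', hR', hBr', -, -⟩ | ⟨a', c'', he', -, -⟩
      · by_cases h1 : r' = 1
        · subst h1
          rw [up_self] at hBr'
          left
          intro v hv
          rw [hBr']
          simp [hYΛ v hv]
        · rw [up_ne B c' h1] at hBr'
          right
          left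
          refine ⟨r', ?_, h1, ?_⟩
          · have h2 : r' ∈ (1 :: R2 : List ℕ) := by
              rw [hR']
              simp
            rw [hR]
            exact List.mem_append_right _ h2
          · intro v hv
            rw [hBr']
            simp [hYΛ v hv]
      · right
        right
        intro v hv
        rw [he']
        simp [hYΛ v hv]
    have hE1 := hplm (fun _ => false)
      (fun D => RR β (Ex R c X) (Bw R (up B 1 (a ++ (D ++ c'))) ++ e)) Y Y' hYY
      (by simp) ?_ ?_
    · refine ⟨X, hX, ?_⟩
      rw [hnew]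
      exact hE1
    · intro A C u v hD _ huv _ hE
      have sD : SFr (a ++ ((A ++ u :: v :: C) ++ c')) := by
        intro z hz
        apply sB 1 z
        rw [hBr]
        simp only [List.mem_append] at hz ⊢
        have hD' : z ∈ A ++ u :: v :: C ↔ z ∈ Y := hD.mem_iff
        rw [List.mem_append] at hD'
        rw [hD'] at hz
        exact hz
      have hG1 := hcpr β m R c X _ e hS hX (sfr_up sB sD 1) se hE
      have hB1 : up B 1 (a ++ ((A ++ u :: v :: C) ++ c')) 1 = (a ++ A) ++ u :: v :: (C ++ c') := by
        rw [up_self]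
        simp only [List.append_assoc, List.cons_append]
      have hgoal : up B 1 (a ++ ((A ++ v :: u :: C) ++ c')) =
          up (up B 1 (a ++ ((A ++ u :: v :: C) ++ c'))) 1 ((a ++ A) ++ v :: u :: (C ++ c')) := by
        rw [up_up]
        simp only [List.append_assoc, List.cons_append]
      have huY : u ∈ Y := hD.mem_iff.1 (by simp)
      have hvY : v ∈ Y := hD.mem_iff.1 (by simp)
      show RR β (Ex R c X) (Bw R (up B 1 (a ++ ((A ++ v :: u :: C) ++ c'))) ++ e)
      rw [hgoal]
      refine β.trans hE ?_
      rcases hmem with hm | hm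
      · exact hswt β m R c _ e hS.can hS.ih hS.pR hG1.toBs _ _ u v hB1 huv
          (List.mem_append_right _ (hm u huY)) (List.mem_append_right _ (hm v hvY))
      · refine hswi β m R c _ e hS.can hS.ih hS.ne hS.pR hG1.toBf _ _ u v hB1 huv ?_ ?_
        · rintro ⟨hu, hv⟩
          have h0Y : 0 ∈ Y := by
            rcases hu with rfl | rfl
            · exact huY
            · rcases hv with rfl | rfl
              · exact hvY
              · exact absurd rfl huv
          have h3Y : 3 ∈ Y := by
            rcases hu with rfl | rfl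
            · rcases hv with rfl | rfl
              · exact absurd rfl huv
              · exact hvY
            · exact huY
          rcases hm with ⟨r, hrm, hrne, hm⟩ | hm
          · have hr0 : r = 0 := by
              by_contra hc
              exact hG.xo r hrm hc hrne (hm 0 h0Y)
            subst hr0
            obtain ⟨h, hB, h0h, h3h, hch, -⟩ := hG.b1
            have hYB : a = [] := by
              rcases a with _ | ⟨z, a'⟩
              · rfl
              · exfalso
                rw [hBr] at hB
                simp only [List.cons_append, List.cons.injEq] at hB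
                have h1 : (0 : ℕ) ∈ h ++ [3] := by
                  rw [← hB.2]
                  simp [h0Y]
                simp [h0h] at h1
            obtain ⟨w0, hw0⟩ : ∃ w0, w0 ∈ h := by
              obtain ⟨w0, hw0⟩ := List.exists_mem_of_ne_nil c hS.ne
              exact ⟨w0, hch w0 hw0⟩
            rcases h with _ | ⟨z, h'⟩
            · exact List.not_mem_nil hw0
            · have hz := (hnfh β m R c X B e (z :: h') hS hX sB se hrB hB).1 z h' rfl
              apply hz
              apply hm
              rw [hYB, List.nil_append] at hBr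
              rw [hBr] at hB
              -- `Y ++ c' = 0 :: z :: (h' ++ [3])`, `3 ∈ Y`
              rcases Y with _ | ⟨y1, Y1⟩
              · exact absurd rfl hY0
              · rcases Y1 with _ | ⟨y2, Y2⟩
                · exfalso
                  simp only [List.mem_singleton] at h0Y h3Y
                  omega
                · simp only [List.cons_append, List.cons.injEq] at hB
                  rw [← hB.2.1]
                  simp
          · exact hG.xe (hm 0 h0Y)
        · rcases hm with ⟨r, hrm, hrne, hm⟩ | hm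
          · left
            refine ⟨r, hrm, hrne, ?_, ?_⟩
            · rw [up_ne _ _ hrne]
              exact hm u huY
            · rw [up_ne _ _ hrne]
              exact hm v hvY
          · right
            exact ⟨hm u huY, hm v hvY⟩
    · show RR β (Ex R c X) (Bw R (up B 1 (a ++ (Y ++ c'))) ++ e)
      rw [up_id B 1 _ hBr]
      exact hrB
  · -- another block
    have hup1 : up B rY (a ++ (Y' ++ c')) 1 = B 1 := up_ne B _ (fun h => hr1 h.symm)
    by_cases hc : fxy (up B rY (a ++ (Y' ++ c')) 0) = fxy (B 0)
    · have h1 := hpmv β m R c B e hS.can hS.ih hS.pR hG.toBf (up B rY (a ++ (Y' ++ c'))) e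
        (fun r _ => by
          by_cases h : r = rY
          · rw [h, up_self]
            exact hperm
          · rw [up_ne B _ h]) hup1 hc (List.Perm.refl _)
      refine ⟨X, hX, ?_⟩
      rw [hnew]
      exact β.trans hrB h1
    · have hr0 : rY = 0 := by
        by_contra h
        exact hc (by rw [up_ne B _ (fun h' => h h'.symm)])
      subst hr0
      have hXX' : XX (fxy (a ++ (Y' ++ c'))) := by
        refine xx_of_perm hX ?_
        rw [← hG.b0]
        exact fxy_perm hperm
      have hT := (htra β m R c X B e hS.can hS.pR hX hG.toBs hrB).1 _ hXX'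
      obtain ⟨h, hB, h0h, h3h, -, -⟩ := hG.b1
      have hdx : dxy (B 1) = h := by
        rw [hB]
        unfold dxy
        rw [List.filter_cons_of_neg (by simp), List.filter_append,
          List.filter_cons_of_neg (by simp), List.filter_nil, List.append_nil,
          List.filter_eq_self]
        intro z hz
        simp only [ne_eq, decide_eq_true_eq]
        exact ⟨fun h' => h0h (h' ▸ hz), fun h' => h3h (h' ▸ hz)⟩
      have htb1 : tb B (fxy (a ++ (Y' ++ c'))) 1 = B 1 := by
        unfold tb
        rw [if_neg one_ne_zero, if_pos rfl, hdx, hB]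
      have htb0 : tb B (fxy (a ++ (Y' ++ c'))) 0 = dxy (B 0) ++ fxy (a ++ (Y' ++ c')) := by
        unfold tb
        rw [if_pos rfl]
      have htbr : ∀ r, r ≠ 0 → r ≠ 1 → tb B (fxy (a ++ (Y' ++ c'))) r = B r := by
        intro r h0 h1
        unfold tb
        rw [if_neg h0, if_neg h1]
      have htbp : ∀ r, (tb B (fxy (a ++ (Y' ++ c'))) r).Perm (B r) := by
        intro r
        by_cases h0 : r = 0
        · rw [h0, htb0]
          exact ((fxy_perm hperm).append_left _).trans (split_perm _)
        · by_cases h1 : r = 1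
          · rw [h1, htb1]
          · rw [htbr r h0 h1]
      have hstb : ∀ r, SFr (tb B (fxy (a ++ (Y' ++ c'))) r) := fun r z hz =>
        sB r z ((htbp r).mem_iff.1 hz)
      have hG2 := hcpr β m R c _ _ e hS hXX' hstb se hT
      have h1 := hpmv β m R c _ e hS.can hS.ih hS.pR hG2.toBf (up B 0 (a ++ (Y' ++ c'))) e
        (fun r _ => by
          by_cases h : r = 0
          · rw [h, up_self]
            exact hperm.trans (htbp 0).symm
          · rw [up_ne B _ h]
            exact (htbp r).symm) (by rw [hup1, htb1])
        (by rw [up_self, htb0, fxy_append (dxy (B 0)), fxy_dxy, List.nil_append, fxy_xx hXX'])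
        (List.Perm.refl _)
      refine ⟨_, hXX', ?_⟩
      rw [hnew]
      exact β.trans hT h1

end Pool.Agent.MWE.H46
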